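import Pool.Agent.Q138.PS.XL
import Pool.Agent.Q138.PS.VY
import Pool.Agent.Q138.PS.WB
import Pool.Agent.Q138.AI.R524521

/-!
# Is `ζ(2) ζ(3)` in `⟨ζ(2), ζ(3), ζ(4), ζ(5)⟩`? Truncated integrals at `1/t`, `t` close to `c n^j α^n`

For integers `t ≥ 2` let `I_s(t) = (1/(s-1)!) ∫_{1/t}^1 log(1/v)^{s-1} / (1-v) dv` and `q_{s,i}(t) = log(t)^i Li_{s-i}(1/t)`,
`0 ≤ i < s`; then `ζ(s) = I_s(t) + ∑_i q_{s,i}(t) / i!`. Let `X(t)` be the rational space spanned by `π²`, `π⁴`, `I_3(t)`,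
`I_5(t)`, the `q_{3,i}(t)`, `π² q_{3,i}(t)` and the `q_{5,i}(t)`. Let `S` be any countable set of complex numbers.

For almost every real number `α > 1` the following holds. The properties `A` of integers named below are RARE along the powers of
`α`: there is `κ > 0` such that for all algebraic numbers `c > 0`, all integers `j`, all real `D` and all large `n`, NO integer
`t ≥ b` (`b = 2` or `3`) with `|t - c n^j α^n| ≤ D (c n^j α^n)^κ` has the property `A`.

* `ζ(2) ζ(3)` is not in the rational span of `ζ(2), ζ(3), ζ(4), ζ(5)` if and only if it is rare that `π² I_3(t)` is in `X(t)`;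
* for each finitely generated rational space `K` inside the rational span of `S` it is rare that there is a relation
  `κ + a I_3(t) + ∑ c_i q_{3,i}(t) + b I_5(t) + ∑ d_i q_{5,i}(t) = 0` with coefficients in `K` other than those with
  `κ + a ζ(3) + b ζ(5) = 0`, `i! c_i = a`, `i! d_i = b`.
-/

set_option autoImplicit false

namespace Pool.Agent.Results.MP_524521_nt.CriterionNearPowers

open Filter Module MeasureTheory Pool.Agent.Q138.PS Pool.Agent.Q138.AI.R524521

/-- **Theorem.** -/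
theorem result (S : Set ℂ) (hS : S.Countable) :
    ∀ᵐ α : ℝ, 1 < α →
      (zeta 2 * zeta 3 ∉ A ↔ RarePow α 2 fun n => Real.pi ^ 2 * I 3 n ∈ X n) ∧
      ∀ K : Submodule ℚ ℂ, K.FG → K ≤ Submodule.span ℚ S → RarePow α 2 fun n => ¬ OnlyRelations K n := by
  obtain ⟨-, h1a, h1b, h3, -⟩ := Pool.Agent.Q138.AI.R524521.result
  have hc := countFG S hS
  have hae := rarePow_ae (ι := Unit ⊕ {K : Submodule ℚ ℂ // K.FG ∧ K ≤ Submodule.span ℚ S})
    (Sum.elim (fun _ n => Real.pi ^ 2 * I 3 n ∈ X n) (fun K n => ¬ OnlyRelations K.1 n))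
  filter_upwards [hae] with α hg hα
  have h1 := hg hα
  refine ⟨⟨fun h => h1 (Sum.inl ()) 2 (h1b.1 h), fun h => h1a.2 (h.exists_not hα)⟩, fun K hK hKS => ?_⟩
  refine h1 (Sum.inr ⟨K, hK, hKS⟩) 2 ?_
  obtain ⟨g, θ, hθ⟩ := fg_range K hK
  obtain ⟨C, c, hc, h6⟩ := h3 g
  refine ⟨C, c, hc, fun T hT => ?_⟩
  have h7 := h6 θ T hT
  rw [hθ] at h7
  exact h7

end Pool.Agent.Results.MP_524521_nt.CriterionNearPowers
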