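import Pool.Agent.Q138.PS.VX
import Pool.Agent.Q138.PS.VY
import Pool.Agent.Q138.PS.WB
import Pool.Agent.Q138.AI.R524521

/-!
# Is `ζ(2) ζ(3)` in `⟨ζ(2), ζ(3), ζ(4), ζ(5)⟩`? Truncated integrals at `1/t`, `t` close to `α P(n)`

For integers `t ≥ 2` let `I_s(t) = (1/(s-1)!) ∫_{1/t}^1 log(1/v)^{s-1} / (1-v) dv` and `q_{s,i}(t) = log(t)^i Li_{s-i}(1/t)`,
`0 ≤ i < s`; then `ζ(s) = I_s(t) + ∑_i q_{s,i}(t) / i!`. Let `X(t)` be the rational space spanned by `π²`, `π⁴`, `I_3(t)`,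
`I_5(t)`, the `q_{3,i}(t)`, `π² q_{3,i}(t)` and the `q_{5,i}(t)`. Let `S` be any countable set of complex numbers.

Let `d ≥ 2`. Outside a set of real numbers of Hausdorff dimension at most `d / (d + 1 / (d 2 ^ (d - 1)))` (that is `8 / 9` for
`d = 2`) every `α > 0` has the following property. There is `η > 0` such that the properties `A` of integers named below are
RARE along `α P(n)`: there is `κ > 0` such that for all large `N` and ALL integral polynomials `P` of degree `d` with positive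
leading coefficient and coefficients of size at most `N ^ η`, for all but `N ^ (1 - κ)` of the `n ≤ N`, NO integer `t ≥ b` (`b = 2`
or `3`) with `|t - ⌊α P(n)⌋| ≤ N ^ κ` has the property `A`.

* `ζ(2) ζ(3)` is not in the rational span of `ζ(2), ζ(3), ζ(4), ζ(5)` if and only if it is rare that `π² I_3(t)` is in `X(t)`;
* for each finitely generated rational space `K` inside the rational span of `S` it is rare that there is a relation
  `κ + a I_3(t) + ∑ c_i q_{3,i}(t) + b I_5(t) + ∑ d_i q_{5,i}(t) = 0` with coefficients in `K` other than those with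
  `κ + a ζ(3) + b ζ(5) = 0`, `i! c_i = a`, `i! d_i = b`.
-/

set_option autoImplicit false

namespace Pool.Agent.Results.MP_524521_nt.CriterionNearRealMultiples

open Filter Module Pool.Agent.Q138.PS Pool.Agent.Q138.AI.R524521

/-- **Theorem.** -/
theorem result (d : ℕ) (hq : 2 ≤ d) (S : Set ℂ) (hS : S.Countable) :
    ∃ E : Set ℝ, dimH E ≤ ENNReal.ofReal (d / (d + 1 / ((d : ℝ) * 2 ^ (d - 1)))) ∧ ∀ α : ℝ, 0 < α → α ∉ E →
      ∃ η : ℝ, 0 < η ∧
      (zeta 2 * zeta 3 ∉ A ↔ Rare d α η 2 fun n => Real.pi ^ 2 * I 3 n ∈ X n) ∧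
      ∀ K : Submodule ℚ ℂ, K.FG → K ≤ Submodule.span ℚ S → Rare d α η 2 fun n => ¬ OnlyRelations K n := by
  obtain ⟨-, h1a, h1b, h3, -⟩ := Pool.Agent.Q138.AI.R524521.result
  have hc := countFG S hS
  obtain ⟨E, hE, hg⟩ := rare_ae (ι := Unit ⊕ {K : Submodule ℚ ℂ // K.FG ∧ K ≤ Submodule.span ℚ S}) d hq
    (Sum.elim (fun _ n => Real.pi ^ 2 * I 3 n ∈ X n) (fun K n => ¬ OnlyRelations K.1 n))
  refine ⟨E, hE, fun α hα hαE => ?_⟩
  obtain ⟨η, hη, h1⟩ := hg α hα hαE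
  refine ⟨η, hη, ⟨fun h => h1 (Sum.inl ()) 2 (h1b.1 h), fun h => h1a.2 (h.exists_not hη)⟩, fun K hK hKS => ?_⟩
  refine h1 (Sum.inr ⟨K, hK, hKS⟩) 2 ?_
  obtain ⟨g, θ, hθ⟩ := fg_range K hK
  obtain ⟨C, c, hc, h6⟩ := h3 g
  refine ⟨C, c, hc, fun T hT => ?_⟩
  have h7 := h6 θ T hT
  rw [hθ] at h7
  exact h7

end Pool.Agent.Results.MP_524521_nt.CriterionNearRealMultiples
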