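import Pool.Agent.Q189.MV.Niel6

/-!
# `ζ(2)ζ(3)`, the space spanned by `ζ(2), …, ζ(5)`, and one integer

For an integer `n ≥ 2` let `I_s(n) = (1/(s-1)!) ∫_{1/n}^1 log(1/v)^(s-1) / (1-v) dv`, the truncation of the integral for `ζ(s)`,
and `q_{s,i}(n) = log(n)^i Li_{s-i}(1/n)`, `0 ≤ i < s`, so that `ζ(s) = I_s(n) + ∑_i q_{s,i}(n) / i!`. Let `X(n)` be the rational
space spanned by `π²`, `π⁴`, `I_3(n)`, `I_5(n)`, the eight products `q_{3,i}(n)`, `q_{5,i}(n)` and the three `π² q_{3,i}(n)`. If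
`ζ(2)ζ(3)` is in the span of `ζ(2), ζ(3), ζ(4), ζ(5)`, then `π² I_3(n)` is in `X(n)` for ALL `n ≥ 2`. We prove the converse, and ONE
integer is enough:

* `ζ(2)ζ(3)` is NOT in the span of `ζ(2), ζ(3), ζ(4), ζ(5)` if and only if for ONE `n ≥ 2` the number `π² I_3(n)` is not in
  `X(n)`; in this case this holds for all `n ≤ T` but `C T ^ (1 - c)`;
* without any hypothesis, for all `n ≤ T` but `C T ^ (1 - c)`: the relations `κ + a I_3(n) + b I_5(n) + ∑ c_{s,i} q_{s,i}(n) = 0`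
  whose coefficients are in the space spanned by given complex numbers (for instance `1, π², π⁴`, or these numbers times a
  basis of a number field) are exactly those with `κ + a ζ(3) + b ζ(5) = 0`, `i! c_{3,i} = a`, `i! c_{5,i} = b`;
* near relations: for such `n`, almost all heights `H` and coefficients which are integral combinations of `1, π², π⁴` with
  coefficients at most `H`, the numbers `|κ + a ζ(3) + b ζ(5)|`, `|i! c_{3,i} - a|`, `|i! c_{5,i} - b|` are at most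
  `H ^ B` times the absolute value of the form; in particular for integers `e, a_2, …, a_5` of absolute value at most `H`
  the number `|e ζ(2)ζ(3) + a_2 ζ(2) + a_3 ζ(3) + a_4 ζ(4) + a_5 ζ(5)|` is small if and only if there is a small form of this
  kind at `n`.
-/

set_option autoImplicit false

namespace Pool.Agent.Results.MP_524521_nt.OneInteger

/-- `ζ(s)` -/
noncomputable def zeta (s : ℕ) : ℝ := ∑' n : ℕ, (1 : ℝ) / ((n : ℝ) + 1) ^ s

/-- the polylogarithm `Li_s(x) = ∑ x ^ m / m ^ s` -/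
noncomputable def Li (s : ℕ) (x : ℝ) : ℝ := ∑' m : ℕ, x ^ (m + 1) / ((m : ℝ) + 1) ^ s

/-- the truncated integral -/
noncomputable def I (s n : ℕ) : ℝ :=
  (∫ v in (1 / (n : ℝ))..1, Real.log (1 / v) ^ (s - 1) / (1 - v)) / (Nat.factorial (s - 1) : ℝ)

/-- the products -/
noncomputable def q (s i n : ℕ) : ℝ := Real.log n ^ i * Li (s - i) (1 / n)

/-- the space spanned by `ζ(2), ζ(3), ζ(4), ζ(5)` -/
noncomputable def A : Submodule ℚ ℝ := Submodule.span ℚ {zeta 2, zeta 3, zeta 4, zeta 5}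

/-- the space spanned by `π²`, `π⁴`, `I_3(n)`, `I_5(n)`, the `q_{3,i}(n)`, `π² q_{3,i}(n)`, `i < 3`, and the `q_{5,i}(n)`, `i < 5` -/
noncomputable def X (n : ℕ) : Submodule ℚ ℝ :=
  Submodule.span ℚ ({Real.pi ^ 2, Real.pi ^ 4, I 3 n, I 5 n} ∪ {r | ∃ i < 3, r = q 3 i n ∨ r = Real.pi ^ 2 * q 3 i n} ∪
    {r | ∃ i < 5, r = q 5 i n})

/-- the linear form -/
noncomputable def form (κ a b : ℂ) (c d : ℕ → ℂ) (n : ℕ) : ℂ :=
  κ + (a * ((I 3 n : ℝ) : ℂ) + ∑ i ∈ Finset.range 3, c i * ((q 3 i n : ℝ) : ℂ)) +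
    (b * ((I 5 n : ℝ) : ℂ) + ∑ i ∈ Finset.range 5, d i * ((q 5 i n : ℝ) : ℂ))

/-- the relations over `K` come from those of `1, ζ(3), ζ(5)` -/
def OnlyRelations (K : Submodule ℚ ℂ) (n : ℕ) : Prop :=
  ∀ (κ a b : ℂ) (c d : ℕ → ℂ), κ ∈ K → a ∈ K → b ∈ K → (∀ i, c i ∈ K) → (∀ i, d i ∈ K) → form κ a b c d n = 0 →
    κ + a * ((zeta 3 : ℝ) : ℂ) + b * ((zeta 5 : ℝ) : ℂ) = 0 ∧ (∀ i < 3, (Nat.factorial i : ℂ) * c i = a) ∧
      ∀ i < 5, (Nat.factorial i : ℂ) * d i = b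

/-- the integral combinations of the `θ_l` with coefficients at most `H` -/
def Comb {g : ℕ} (θ : Fin g → ℂ) (H : ℝ) : Set ℂ :=
  {r | ∃ a : Fin g → ℤ, (∀ l, |((a l : ℤ) : ℝ)| ≤ H) ∧ r = ∑ l, (a l : ℂ) * θ l}

/-- the numbers `1, π², π⁴` -/
noncomputable def pis : Fin 3 → ℂ := ![1, (Real.pi : ℂ) ^ 2, (Real.pi : ℂ) ^ 4]

/-- small forms at the height `H` come from small forms in `1, ζ(3), ζ(5)` -/
def Good {g : ℕ} (B : ℕ) (θ : Fin g → ℂ) (n : ℕ) (H : ℝ) : Prop :=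
  ∀ (κ a b : ℂ) (c d : ℕ → ℂ), κ ∈ Comb θ H → a ∈ Comb θ H → b ∈ Comb θ H → (∀ i, c i ∈ Comb θ H) → (∀ i, d i ∈ Comb θ H) →
    ‖κ + a * ((zeta 3 : ℝ) : ℂ) + b * ((zeta 5 : ℝ) : ℂ)‖ ≤ H ^ B * ‖form κ a b c d n‖ ∧
    (∀ i < 3, ‖(Nat.factorial i : ℂ) * c i - a‖ ≤ H ^ B * ‖form κ a b c d n‖) ∧
      ∀ i < 5, ‖(Nat.factorial i : ℂ) * d i - b‖ ≤ H ^ B * ‖form κ a b c d n‖

/-- (1) the decompositions; (2) the criterion by one integer and (3) by almost all integers; (4) the relations at almost all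
integers; (5) near relations. -/
theorem result :
    (∀ s n : ℕ, 2 ≤ s → 2 ≤ n → zeta s = I s n + ∑ i ∈ Finset.range s, 1 / (Nat.factorial i : ℝ) * q s i n) ∧
    (zeta 2 * zeta 3 ∉ A ↔ ∃ n : ℕ, 2 ≤ n ∧ Real.pi ^ 2 * I 3 n ∉ X n) ∧
    (zeta 2 * zeta 3 ∉ A ↔ ∃ C c : ℝ, 0 < c ∧ ∀ T : ℕ, 1 ≤ T →
      (({n : ℕ | 2 ≤ n ∧ n ≤ T ∧ Real.pi ^ 2 * I 3 n ∈ X n}.ncard : ℕ) : ℝ) ≤ C * (T : ℝ) ^ (1 - c)) ∧
    (∀ g : ℕ, ∃ C c : ℝ, 0 < c ∧ ∀ θ : Fin g → ℂ, ∀ T : ℕ, 1 ≤ T →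
      (({n : ℕ | 2 ≤ n ∧ n ≤ T ∧ ¬ OnlyRelations (Submodule.span ℚ (Set.range θ)) n}.ncard : ℕ) : ℝ) ≤
        C * (T : ℝ) ^ (1 - c)) ∧
    ∀ g : ℕ, ∃ (B : ℕ) (C c : ℝ), 0 < c ∧ ∀ T : ℕ, 1 ≤ T →
      (∃ H₀ : ℝ, ∀ H₁ : ℝ, H₀ ≤ H₁ → ∀ θ : Fin g → ℂ,
        (({n : ℕ | 2 ≤ n ∧ n ≤ T ∧ ¬ ∀ H : ℝ, H₁ ≤ H → H ≤ H₁ ^ Real.exp ((T : ℝ) ^ c) → Good B θ n H}.ncard : ℕ) : ℝ) ≤
          C * (T : ℝ) ^ (1 - c)) ∧
      ∀ θ : Fin g → ℂ, (({n : ℕ | 2 ≤ n ∧ n ≤ T ∧ ¬ ∀ N₀ : ℕ, ∃ N, N₀ ≤ N ∧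
        (({j : ℕ | j < N ∧ ¬ ∀ H : ℝ, 2 ^ (2 ^ j) ≤ H → H ≤ 2 ^ (2 ^ (j + 1)) → Good B θ n H}.ncard : ℕ) : ℝ) ≤
            (T : ℝ) ^ (-c) * N}.ncard : ℕ) : ℝ) ≤ C * (T : ℝ) ^ (1 - c) := by
  classical
  have hz : ∀ s, zeta s = Pool.Agent.Q189.MV.ze s := fun s => rfl
  have hI : ∀ s n : ℕ, 2 ≤ s → 2 ≤ n → I s n = Pool.Agent.Q189.MV.Inn s (1 / n) := by
    intro s n hs hn
    obtain ⟨h1, h2⟩ := Pool.Agent.Q189.MV.inv_pos_lt hn
    exact (Pool.Agent.Q189.MV.Inn_int (N := s) h1 h2 hs).symm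
  have hq : ∀ s n i : ℕ, i < s → q s i n = Pool.Agent.Q189.MV.qq n s i := by
    intro s n i hi
    obtain ⟨j, hj⟩ : ∃ j, s - i = j + 1 := ⟨s - i - 1, by omega⟩
    unfold q Pool.Agent.Q189.MV.qq
    rw [hj]
    rfl
  have hdec : ∀ s n : ℕ, 2 ≤ s → 2 ≤ n → zeta s = I s n + ∑ i ∈ Finset.range s, 1 / (Nat.factorial i : ℝ) * q s i n := by
    intro s n hs hn
    rw [hI s n hs hn, Pool.Agent.Q189.MV.Inn_qq hn hs, hz]
    have e : ∑ i ∈ Finset.range s, 1 / (Nat.factorial i : ℝ) * q s i n =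
        ∑ i ∈ Finset.range s, 1 / (Nat.factorial i : ℝ) * Pool.Agent.Q189.MV.qq n s i :=
      Finset.sum_congr rfl fun i hi => by rw [hq s n i (Finset.mem_range.1 hi)]
    rw [e]
    ring
  have hF : ∀ s ∈ ({3, 5} : Finset ℕ), 2 ≤ s := by decide
  -- the forms
  have hf : ∀ (κ a b : ℂ) (c d : ℕ → ℂ) (n : ℕ), 2 ≤ n → form κ a b c d n =
      Pool.Agent.Q189.MV.LF {3, 5} (fun s => if s = 3 then a else b) κ (fun s i => if s = 3 then c i else d i) n := by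
    intro κ a b c d n hn
    unfold form Pool.Agent.Q189.MV.LF
    rw [Finset.sum_insert (by decide), Finset.sum_singleton, hI 3 n (by norm_num) hn, hI 5 n (by norm_num) hn]
    have e3 : ∑ i ∈ Finset.range 3, c i * ((q 3 i n : ℝ) : ℂ) =
        ∑ i ∈ Finset.range 3, c i * ((Pool.Agent.Q189.MV.qq n 3 i : ℝ) : ℂ) :=
      Finset.sum_congr rfl fun i hi => by rw [hq 3 n i (Finset.mem_range.1 hi)]
    have e5 : ∑ i ∈ Finset.range 5, d i * ((q 5 i n : ℝ) : ℂ) =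
        ∑ i ∈ Finset.range 5, d i * ((Pool.Agent.Q189.MV.qq n 5 i : ℝ) : ℂ) :=
      Finset.sum_congr rfl fun i hi => by rw [hq 5 n i (Finset.mem_range.1 hi)]
    rw [e3, e5, add_assoc]
    rfl
  have hOR : ∀ (K : Submodule ℚ ℂ) (n : ℕ), 2 ≤ n → Pool.Agent.Q189.MV.ES {3, 5} K n → OnlyRelations K n := by
    intro K n hn hE κ a b c d hκ ha hb hc hd h0
    rw [hf κ a b c d n hn] at h0
    obtain ⟨h1, h2⟩ := hE (fun s => if s = 3 then a else b) κ (fun s i => if s = 3 then c i else d i)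
      (fun s => by
        show (if s = 3 then a else b) ∈ K
        split_ifs
        · exact ha
        · exact hb) hκ
      (fun s i => by
        show (if s = 3 then c i else d i) ∈ K
        split_ifs
        · exact hc i
        · exact hd i) h0
    refine ⟨?_, fun i hi => ?_, fun i hi => ?_⟩
    · rw [Finset.sum_insert (by decide), Finset.sum_singleton] at h1
      rw [hz, hz, add_assoc]
      exact h1
    · exact h2 3 (by decide) i hi
    · exact h2 5 (by decide) i hi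
  have hGd : ∀ {g : ℕ} (B : ℕ) (θ : Fin g → ℂ) (n : ℕ) (H : ℝ), 2 ≤ n → Pool.Agent.Q189.MV.GS {3, 5} B θ n H → Good B θ n H := by
    intro g B θ n H hn hG κ a b c d hκ ha hb hc hd
    rw [hf κ a b c d n hn]
    obtain ⟨h1, h2⟩ := hG (fun s => if s = 3 then a else b) κ (fun s i => if s = 3 then c i else d i)
      (fun s => by
        show (if s = 3 then a else b) ∈ Pool.Agent.Q189.MV.Cf θ H
        split_ifs
        · exact ha
        · exact hb) hκ
      (fun s i => by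
        show (if s = 3 then c i else d i) ∈ Pool.Agent.Q189.MV.Cf θ H
        split_ifs
        · exact hc i
        · exact hd i)
    refine ⟨?_, fun i hi => ?_, fun i hi => ?_⟩
    · rw [Finset.sum_insert (by decide), Finset.sum_singleton] at h1
      rw [hz, hz, add_assoc]
      exact h1
    · exact h2 3 (by decide) i hi
    · exact h2 5 (by decide) i hi
  -- the even zeta values
  have h2π : zeta 2 = Real.pi ^ 2 / 6 := by
    have h := (hasSum_nat_add_iff' 1).2 hasSum_zeta_two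
    unfold zeta
    have h1 := h.tsum_eq
    simp only [Finset.range_one, Finset.sum_singleton, Nat.cast_zero] at h1
    norm_num at h1
    rw [← h1]
    refine tsum_congr fun m => ?_
    rw [one_div]
  have h4π : zeta 4 = Real.pi ^ 4 / 90 := by
    have h := (hasSum_nat_add_iff' 1).2 hasSum_zeta_four
    unfold zeta
    have h1 := h.tsum_eq
    simp only [Finset.range_one, Finset.sum_singleton, Nat.cast_zero] at h1
    norm_num at h1
    rw [← h1]
    refine tsum_congr fun m => ?_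
    rw [one_div]
  have mZ : ∀ {M : Submodule ℚ ℝ} {r r' : ℝ} (a : ℚ), r' = (a : ℝ) * r → r ∈ M → r' ∈ M := by
    intro M r r' a h hr
    rw [h, ← Rat.smul_def]
    exact Submodule.smul_mem _ _ hr
  -- the members of the spaces
  have g2 : zeta 2 ∈ A := Submodule.subset_span (by simp)
  have g3 : zeta 3 ∈ A := Submodule.subset_span (by simp)
  have g4 : zeta 4 ∈ A := Submodule.subset_span (by simp)
  have g5 : zeta 5 ∈ A := Submodule.subset_span (by simp)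
  have x2 : ∀ n, Real.pi ^ 2 ∈ X n := fun n => Submodule.subset_span (Or.inl (Or.inl (by simp)))
  have x4 : ∀ n, Real.pi ^ 4 ∈ X n := fun n => Submodule.subset_span (Or.inl (Or.inl (by simp)))
  have x3 : ∀ n, I 3 n ∈ X n := fun n => Submodule.subset_span (Or.inl (Or.inl (by simp)))
  have x5 : ∀ n, I 5 n ∈ X n := fun n => Submodule.subset_span (Or.inl (Or.inl (by simp)))
  have xq3 : ∀ n i, i < 3 → q 3 i n ∈ X n := fun n i hi => Submodule.subset_span (Or.inl (Or.inr ⟨i, hi, Or.inl rfl⟩))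
  have xp3 : ∀ n i, i < 3 → Real.pi ^ 2 * q 3 i n ∈ X n := fun n i hi =>
    Submodule.subset_span (Or.inl (Or.inr ⟨i, hi, Or.inr rfl⟩))
  have xq5 : ∀ n i, i < 5 → q 5 i n ∈ X n := fun n i hi => Submodule.subset_span (Or.inr ⟨i, hi, rfl⟩)
  have hAX : ∀ n : ℕ, 2 ≤ n → A ≤ X n := by
    intro n hn
    unfold A
    rw [Submodule.span_le]
    rintro r (rfl | rfl | rfl | hr)
    · exact mZ (1 / 6) (by rw [h2π]; push_cast; ring) (x2 n)
    · rw [hdec 3 n (by norm_num) hn]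
      refine Submodule.add_mem _ (x3 n) (Submodule.sum_mem _ fun i hi => ?_)
      exact mZ (1 / (Nat.factorial i : ℚ)) (by push_cast; ring) (xq3 n i (Finset.mem_range.1 hi))
    · exact mZ (1 / 90) (by rw [h4π]; push_cast; ring) (x4 n)
    · rw [Set.mem_singleton_iff.1 hr, hdec 5 n (by norm_num) hn]
      refine Submodule.add_mem _ (x5 n) (Submodule.sum_mem _ fun i hi => ?_)
      exact mZ (1 / (Nat.factorial i : ℚ)) (by push_cast; ring) (xq5 n i (Finset.mem_range.1 hi))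
  -- first direction
  have dir1 : ∀ n : ℕ, 2 ≤ n → zeta 2 * zeta 3 ∈ A → Real.pi ^ 2 * I 3 n ∈ X n := by
    intro n hn h
    have h1 : Real.pi ^ 2 * I 3 n = 6 * (zeta 2 * zeta 3) - ∑ i ∈ Finset.range 3, 1 / (Nat.factorial i : ℝ) *
        (Real.pi ^ 2 * q 3 i n) := by
      have h3 : I 3 n = zeta 3 - ∑ i ∈ Finset.range 3, 1 / (Nat.factorial i : ℝ) * q 3 i n := by
        rw [hdec 3 n (by norm_num) hn]
        ring
      rw [h3, h2π, mul_sub, Finset.mul_sum]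
      congr 1
      · ring
      · refine Finset.sum_congr rfl fun i _ => ?_
        ring
    rw [h1]
    refine Submodule.sub_mem _ (mZ 6 (by push_cast; ring) (hAX n hn h)) (Submodule.sum_mem _ fun i hi => ?_)
    exact mZ (1 / (Nat.factorial i : ℚ)) (by push_cast; ring) (xp3 n i (Finset.mem_range.1 hi))
  -- the members of `X n`
  have hX : ∀ (n : ℕ) (r : ℝ), r ∈ X n → ∃ (u v a b : ℚ) (c c' d : ℕ → ℚ), r = u * Real.pi ^ 2 + v * Real.pi ^ 4 + a * I 3 n + b * I 5 n +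
      ∑ i ∈ Finset.range 3, ((c i : ℝ) + c' i * Real.pi ^ 2) * q 3 i n + ∑ i ∈ Finset.range 5, (d i : ℝ) * q 5 i n := by
    intro n r hr
    unfold X at hr
    induction hr using Submodule.span_induction with
    | mem r hr =>
      rcases hr with (hr | ⟨i, hi, hr | hr⟩) | ⟨i, hi, hr⟩
      · rcases hr with rfl | rfl | rfl | hr
        · exact ⟨1, 0, 0, 0, 0, 0, 0, by simp⟩
        · exact ⟨0, 1, 0, 0, 0, 0, 0, by simp⟩
        · exact ⟨0, 0, 1, 0, 0, 0, 0, by simp⟩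
        · exact ⟨0, 0, 0, 1, 0, 0, 0, by rw [Set.mem_singleton_iff.1 hr]; simp⟩
      · refine ⟨0, 0, 0, 0, Pi.single i 1, 0, 0, ?_⟩
        rw [hr, Finset.sum_eq_single_of_mem i (Finset.mem_range.2 hi)]
        · simp
        · intro j _ hj
          simp [Pi.single_eq_of_ne hj]
      · refine ⟨0, 0, 0, 0, 0, Pi.single i 1, 0, ?_⟩
        rw [hr, Finset.sum_eq_single_of_mem i (Finset.mem_range.2 hi)]
        · simp
        · intro j _ hj
          simp [Pi.single_eq_of_ne hj]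
      · refine ⟨0, 0, 0, 0, 0, 0, Pi.single i 1, ?_⟩
        rw [hr, Finset.sum_eq_single_of_mem (s := Finset.range 5) i (Finset.mem_range.2 hi)]
        · simp
        · intro j _ hj
          simp [Pi.single_eq_of_ne hj]
    | zero => exact ⟨0, 0, 0, 0, 0, 0, 0, by simp⟩
    | add r r' _ _ h h' =>
      obtain ⟨u, v, a, b, c, c', d, rfl⟩ := h
      obtain ⟨u1, v1, a1, b1, c1, c1', d1, rfl⟩ := h'
      refine ⟨u + u1, v + v1, a + a1, b + b1, c + c1, c' + c1', d + d1, ?_⟩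
      simp only [Pi.add_apply, Rat.cast_add, add_mul, Finset.sum_add_distrib]
      ring
    | smul t r _ h =>
      obtain ⟨u, v, a, b, c, c', d, rfl⟩ := h
      refine ⟨t * u, t * v, t * a, t * b, t • c, t • c', t • d, ?_⟩
      simp only [Pi.smul_apply, smul_eq_mul, Rat.cast_mul, Rat.smul_def, mul_add, Finset.mul_sum]
      have s1 : ∀ i, (t : ℝ) * (((c i : ℝ) + c' i * Real.pi ^ 2) * q 3 i n) = ((t : ℝ) * c i + t * c' i * Real.pi ^ 2) * q 3 i n :=
        fun i => by ring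
      have s2 : ∀ i, (t : ℝ) * ((d i : ℝ) * q 5 i n) = (t : ℝ) * d i * q 5 i n := fun i => by ring
      simp only [s1, s2]
      ring
  -- second direction
  have hpis : ∀ x y z : ℚ, (x : ℂ) + y * (Real.pi : ℂ) ^ 2 + z * (Real.pi : ℂ) ^ 4 ∈ Submodule.span ℚ (Set.range pis) := by
    intro x y z
    rw [Submodule.mem_span_range_iff_exists_fun]
    refine ⟨![x, y, z], ?_⟩
    rw [Fin.sum_univ_three]
    unfold pis
    simp only [Matrix.cons_val_zero, Matrix.cons_val_one, Matrix.cons_val, Rat.smul_def]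
    ring
  have dir2 : ∀ n : ℕ, 2 ≤ n → Pool.Agent.Q189.MV.ES {3, 5} (Submodule.span ℚ (Set.range pis)) n →
      Real.pi ^ 2 * I 3 n ∈ X n → zeta 2 * zeta 3 ∈ A := by
    intro n hn hE h
    obtain ⟨u, v, a, b, c, c', d, h1⟩ := hX n _ h
    have h2 := (hOR _ n hn hE (-((u : ℂ) * (Real.pi : ℂ) ^ 2 + v * (Real.pi : ℂ) ^ 4)) ((Real.pi : ℂ) ^ 2 - a) (-(b : ℂ))
      (fun i => -((c i : ℂ) + c' i * (Real.pi : ℂ) ^ 2)) (fun i => -(d i : ℂ))
      (by
        have := hpis 0 (-u) (-v)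
        push_cast at this
        convert this using 1
        ring)
      (by
        have := hpis (-a) 1 0
        push_cast at this
        convert this using 1
        ring)
      (by
        have := hpis (-b) 0 0
        push_cast at this
        convert this using 1
        ring)
      (fun i => by
        have := hpis (-c i) (-c' i) 0
        push_cast at this
        convert this using 1
        ring)
      (fun i => by
        have := hpis (-d i) 0 0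
        push_cast at this
        convert this using 1
        ring)
      (by
        have h3 := congrArg (fun r : ℝ => (r : ℂ)) h1
        unfold form
        have s1 : ∑ i ∈ Finset.range 3, -((c i : ℂ) + c' i * (Real.pi : ℂ) ^ 2) * ((q 3 i n : ℝ) : ℂ) =
            -∑ i ∈ Finset.range 3, ((c i : ℂ) + c' i * (Real.pi : ℂ) ^ 2) * ((q 3 i n : ℝ) : ℂ) := by
          rw [← Finset.sum_neg_distrib]
          exact Finset.sum_congr rfl fun i _ => by ring
        have s2 : ∑ i ∈ Finset.range 5, -(d i : ℂ) * ((q 5 i n : ℝ) : ℂ) = -∑ i ∈ Finset.range 5, (d i : ℂ) * ((q 5 i n : ℝ) : ℂ) := by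
          rw [← Finset.sum_neg_distrib]
          exact Finset.sum_congr rfl fun i _ => by ring
        rw [s1, s2]
        push_cast at h3
        linear_combination h3)).1
    have h4 : Real.pi ^ 2 * zeta 3 = u * Real.pi ^ 2 + v * Real.pi ^ 4 + a * zeta 3 + b * zeta 5 := by
      refine Complex.ofReal_injective ?_
      push_cast
      linear_combination h2
    have h5 : zeta 2 * zeta 3 = (u : ℝ) * zeta 2 + ((15 * v : ℚ) : ℝ) * zeta 4 + ((a / 6 : ℚ) : ℝ) * zeta 3 + ((b / 6 : ℚ) : ℝ) * zeta 5 := by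
      rw [h2π, h4π]
      push_cast
      linear_combination h4 / 6
    rw [h5]
    refine Submodule.add_mem _ (Submodule.add_mem _ (Submodule.add_mem _ ?_ ?_) ?_) ?_
    · exact mZ u rfl g2
    · exact mZ _ rfl g4
    · exact mZ _ rfl g3
    · exact mZ _ rfl g5
  have few : zeta 2 * zeta 3 ∉ A → ∃ C c : ℝ, 0 < c ∧ ∀ T : ℕ, 1 ≤ T →
      (({n : ℕ | 2 ≤ n ∧ n ≤ T ∧ Real.pi ^ 2 * I 3 n ∈ X n}.ncard : ℕ) : ℝ) ≤ C * (T : ℝ) ^ (1 - c) := by
    intro h
    obtain ⟨C, c, hc, hfe⟩ := Pool.Agent.Q189.MV.few_ES {3, 5} hF 3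
    refine ⟨C, c, hc, fun T hT => ?_⟩
    refine le_trans (Nat.cast_le.2 (Set.ncard_le_ncard ?_ ((Set.finite_le_nat T).subset fun n hn => hn.2.1))) (hfe pis T hT)
    rintro n ⟨h1, h2, h3⟩
    exact ⟨h1, h2, fun h4 => h (dir2 n h1 h4 h3)⟩
  have one : (∃ C c : ℝ, 0 < c ∧ ∀ T : ℕ, 1 ≤ T →
      (({n : ℕ | 2 ≤ n ∧ n ≤ T ∧ Real.pi ^ 2 * I 3 n ∈ X n}.ncard : ℕ) : ℝ) ≤ C * (T : ℝ) ^ (1 - c)) →
      ∃ n : ℕ, 2 ≤ n ∧ Real.pi ^ 2 * I 3 n ∉ X n := by
    rintro ⟨C, c, hc, hfe⟩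
    exact Pool.Agent.Q189.MV.exists_few hc hfe
  have back : (∃ n : ℕ, 2 ≤ n ∧ Real.pi ^ 2 * I 3 n ∉ X n) → zeta 2 * zeta 3 ∉ A := by
    rintro ⟨n, hn, h⟩ h1
    exact h (dir1 n hn h1)
  refine ⟨hdec, ⟨fun h => one (few h), back⟩, ⟨few, fun h => back (one h)⟩, fun g => ?_, fun g => ?_⟩
  · obtain ⟨C, c, hc, h⟩ := Pool.Agent.Q189.MV.few_ES {3, 5} hF g
    refine ⟨C, c, hc, fun θ T hT => ?_⟩
    refine le_trans (Nat.cast_le.2 (Set.ncard_le_ncard ?_ ((Set.finite_le_nat T).subset fun n hn => hn.2.1))) (h θ T hT)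
    rintro n ⟨h1, h2, h3⟩
    exact ⟨h1, h2, fun h4 => h3 (hOR _ n h1 h4)⟩
  · obtain ⟨B, C, c, hc, h⟩ := Pool.Agent.Q189.MV.mainS {3, 5} hF g
    refine ⟨B, C, c, hc, fun T hT => ?_⟩
    obtain ⟨⟨H₀, h1⟩, h2⟩ := h T hT
    refine ⟨⟨H₀, fun H₁ hH₁ θ => ?_⟩, fun θ => ?_⟩
    · refine le_trans (Nat.cast_le.2 (Set.ncard_le_ncard ?_ ((Set.finite_le_nat T).subset fun n hn => hn.2.1))) (h1 H₁ hH₁ θ)
      rintro n ⟨e1, e2, e3⟩
      exact ⟨e1, e2, fun e4 => e3 fun H ha hb => hGd B θ n H e1 (e4 H ha hb)⟩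
    · refine le_trans (Nat.cast_le.2 (Set.ncard_le_ncard ?_ ((Set.finite_le_nat T).subset fun n hn => hn.2.1))) (h2 θ)
      rintro n ⟨e1, e2, e3⟩
      refine ⟨e1, e2, fun e4 => e3 fun N₀ => ?_⟩
      obtain ⟨N, hN, hbad⟩ := e4 N₀
      refine ⟨N, hN, le_trans (Nat.cast_le.2 (Set.ncard_le_ncard ?_ ((Set.finite_lt_nat N).subset fun j hj => hj.1))) hbad⟩
      rintro j ⟨hj, hj'⟩
      exact ⟨hj, fun hcon => hj' fun H ha hb => hGd B θ n H e1 (hcon H ha hb)⟩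

end Pool.Agent.Results.MP_524521_nt.OneInteger
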