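import Pool.Agent.Q252.ZP2

/-!
# Rational relations between `ζ(2) ζ(3)`, `ζ(2)`, `ζ(3)`, `ζ(4)`, `ζ(5)`

`z s = ∑ 1 / (n + 1) ^ s` is `ζ(s)`. The rational solutions `(a, b, c, d)` of
`ζ(2) ζ(3) = a ζ(2) + b ζ(3) + c ζ(4) + d ζ(5)` all lie on one affine line of `ℚ⁴`, there is none with `b = d = 0`
and at most one for every ratio `b : d`. The quantitative form: `ζ(2) ζ(3)`, `ζ(2)`, `ζ(4)` have a measure of linear
independence with exponent `227`, and for arbitrary real numbers `t_1, …, t_r` (for instance `ζ(3)`, `ζ(5)`) the integer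
vectors of norm at most `X` on which `e ζ(2) ζ(3) + a ζ(2) + c ζ(4) + ∑ d_j t_j` is smaller than a constant times
`X ^ (-(228 r + 227))` span a space of dimension at most `r`, at every scale `X`.
-/

set_option autoImplicit false

namespace Pool.Agent.Results.MP_524521_nt.SolutionsOnALine

/-- `ζ(s)`, `s ≥ 2` -/
noncomputable def z (s : ℕ) : ℝ := ∑' n : ℕ, 1 / ((n : ℝ) + 1) ^ s

/-- the relation of Q1 for the rational coefficients `(a, b, c, d) = (y 0, y 1, y 2, y 3)` -/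
def Rel (y : Fin 4 → ℚ) : Prop :=
  z 2 * z 3 = y 0 * z 2 + y 1 * z 3 + y 2 * z 4 + y 3 * z 5

theorem result :
    -- the rational solutions lie on a line
    (∃ P W : Fin 4 → ℚ, ∀ y : Fin 4 → ℚ, Rel y → ∃ s : ℚ, y = P + s • W) ∧
    -- none with `b = d = 0`
    (∀ y : Fin 4 → ℚ, Rel y → ¬ (y 1 = 0 ∧ y 3 = 0)) ∧
    -- at most one for every ratio `b : d`
    (∀ y y' : Fin 4 → ℚ, Rel y → Rel y' → y 1 * y' 3 = y' 1 * y 3 → y = y') ∧
    -- a measure of linear independence for `ζ(2) ζ(3), ζ(2), ζ(4)`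
    (∃ c : ℝ, 0 < c ∧ ∀ (e a d : ℤ) (H : ℝ), 1 ≤ H → ¬ (e = 0 ∧ a = 0 ∧ d = 0) →
      |(e : ℝ)| ≤ H → |(d : ℝ)| ≤ H →
      c * H ^ (-227 : ℝ) ≤ |(e : ℝ) * (z 2 * z 3) + a * z 2 + d * z 4|) ∧
    -- the rank of the near relations with arbitrary further numbers
    (∀ r : ℕ, ∃ c : ℝ, 0 < c ∧ ∀ (t : Fin r → ℝ) (X : ℝ), 1 ≤ X →
      ∀ v : Fin (r + 1) → (Fin 3 → ℤ) × (Fin r → ℤ), LinearIndependent ℤ v →
        (∀ k, ‖v k‖ ≤ X) →
        ∃ k, c * X ^ (-(228 * r + 227 : ℝ)) ≤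
          |((v k).1 0 : ℝ) * (z 2 * z 3) + (v k).1 1 * z 2 + (v k).1 2 * z 4 +
            ∑ j, ((v k).2 j : ℝ) * t j|) :=
  ⟨Pool.Agent.Q252.ZP.line, Pool.Agent.Q252.ZP.not_both, Pool.Agent.Q252.ZP.direction,
    Pool.Agent.Q252.ZP.meas3, Pool.Agent.Q252.ZP.rank⟩

end Pool.Agent.Results.MP_524521_nt.SolutionsOnALine
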